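import Pool.Agent.S11957

/-!
For every k at least 4 and every large prime p no subset of the affine plane over the field with
p elements is equidistributed in exactly p + 1 - k directions.
-/

open Finset Module

namespace Pool.Agent.Results.MP_ec4324_co.NotAllCounts

/-- `S` is equidistributed in the direction `D`: all the lines `x + D` parallel to `D` meet `S`
in the same number of points. -/
def Equidistributed {p : ℕ} (S : Set (ZMod p × ZMod p))
    (D : Submodule (ZMod p) (ZMod p × ZMod p)) : Prop :=
  ∀ x y : ZMod p × ZMod p, {s ∈ S | s - x ∈ D}.ncard = {s ∈ S | s - y ∈ D}.ncard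

/-- The number of directions (one-dimensional subspaces) in which `S` is equidistributed. -/
noncomputable def numEquidistributed {p : ℕ} (S : Set (ZMod p × ZMod p)) : ℕ :=
  {D : Submodule (ZMod p) (ZMod p × ZMod p) | finrank (ZMod p) D = 1 ∧
    Equidistributed S D}.ncard

section

variable {p : ℕ} [Fact p.Prime]

/-- The linear functional whose level sets are the lines of slope `d`. -/
def fn (d : Option (ZMod p)) : (ZMod p × ZMod p) →ₗ[ZMod p] ZMod p :=
  d.elim (LinearMap.fst _ _ _) (fun m => LinearMap.snd _ _ _ - m • LinearMap.fst _ _ _)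

lemma fn_apply (d : Option (ZMod p)) (q : ZMod p × ZMod p) :
    fn d q = d.elim q.1 (fun m => q.2 - m * q.1) := by
  cases d <;> simp [fn]

lemma fn_surj (d : Option (ZMod p)) : Function.Surjective (fn d) := by
  intro b
  cases d with
  | none => exact ⟨(b, 0), by simp [fn]⟩
  | some m => exact ⟨(0, b), by simp [fn]⟩

lemma finrank_ker (d : Option (ZMod p)) : finrank (ZMod p) (LinearMap.ker (fn d)) = 1 := by
  have h := LinearMap.finrank_range_add_finrank_ker (fn d)
  rw [LinearMap.range_eq_top.mpr (fn_surj d), finrank_top, finrank_self,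
    Module.finrank_prod, finrank_self] at h
  omega

lemma ker_inj : Function.Injective (fun d : Option (ZMod p) => LinearMap.ker (fn d)) := by
  intro d d' h
  simp only at h
  cases d with
  | none =>
    cases d' with
    | none => rfl
    | some m =>
      exfalso
      have h1 : ((0 : ZMod p), (1 : ZMod p)) ∈ LinearMap.ker (fn (none : Option (ZMod p))) := by
        simp [fn]
      rw [h] at h1
      simp [fn] at h1
  | some m =>
    have h1 : ((1 : ZMod p), m) ∈ LinearMap.ker (fn (some m)) := by simp [fn]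
    rw [h] at h1
    cases d' with
    | none => exfalso; simp [fn] at h1
    | some m' =>
      simp only [fn, LinearMap.mem_ker, Option.elim_some, LinearMap.sub_apply,
        LinearMap.snd_apply, LinearMap.smul_apply, LinearMap.fst_apply, smul_eq_mul,
        mul_one] at h1
      rw [sub_eq_zero.mp h1]

lemma exists_ker (D : Submodule (ZMod p) (ZMod p × ZMod p)) (hD : finrank (ZMod p) D = 1) :
    ∃ d, LinearMap.ker (fn d) = D := by
  obtain ⟨v, hv, hspan⟩ := finrank_eq_one_iff'.mp hD
  have hle : ∀ d, fn d v.1 = 0 → LinearMap.ker (fn d) = D := by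
    intro d hd
    symm
    apply Submodule.eq_of_le_of_finrank_eq
    · intro w hw
      obtain ⟨c, hc⟩ := hspan ⟨w, hw⟩
      have : w = c • v.1 := by
        have := congrArg Subtype.val hc
        simpa using this.symm
      rw [LinearMap.mem_ker, this, map_smul, hd, smul_zero]
    · rw [hD, finrank_ker]
  by_cases h1 : v.1.1 = 0
  · exact ⟨none, hle none (by simp [fn, h1])⟩
  · refine ⟨some (v.1.2 / v.1.1), hle _ ?_⟩
    simp [fn]
    field_simp
    ring

lemma line_eq (S : Set (ZMod p × ZMod p)) (d : Option (ZMod p)) (x : ZMod p × ZMod p) :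
    {s ∈ S | s - x ∈ LinearMap.ker (fn d)} = {s ∈ S | fn d s = fn d x} := by
  ext s
  simp only [Set.mem_setOf_eq, LinearMap.mem_ker, map_sub, sub_eq_zero]

lemma equi_iff (S : Finset (ZMod p × ZMod p)) (d : Option (ZMod p)) :
    Equidistributed (S : Set (ZMod p × ZMod p)) (LinearMap.ker (fn d)) ↔
      ∀ b b' : ZMod p, #(S.filter (fun q => fn d q = b)) = #(S.filter (fun q => fn d q = b')) := by
  have e : ∀ b, {s ∈ (S : Set (ZMod p × ZMod p)) | fn d s = b}.ncard =
      #(S.filter (fun q => fn d q = b)) := by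
    intro b
    rw [← Set.ncard_coe_finset]
    congr 1
    ext s
    simp
  constructor
  · intro h b b'
    obtain ⟨x, rfl⟩ := fn_surj d b
    obtain ⟨y, rfl⟩ := fn_surj d b'
    have := h x y
    rwa [line_eq, line_eq, e, e] at this
  · intro h x y
    rw [line_eq, line_eq, e, e]
    exact h _ _

lemma card_sum (S : Finset (ZMod p × ZMod p)) (d : Option (ZMod p)) :
    #S = ∑ b : ZMod p, #(S.filter (fun q => fn d q = b)) :=
  card_eq_sum_card_fiberwise (fun _ _ => mem_coe.mpr (mem_univ _))

lemma equi_iff' (S : Finset (ZMod p × ZMod p)) (d : Option (ZMod p)) :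
    Equidistributed (S : Set (ZMod p × ZMod p)) (LinearMap.ker (fn d)) ↔
      ∀ b : ZMod p, #(S.filter (fun q => fn d q = b)) * p = #S := by
  rw [equi_iff]
  constructor
  · intro h b
    rw [card_sum S d, sum_congr rfl (fun b' _ => h b' b), sum_const, card_univ, ZMod.card,
      smul_eq_mul, mul_comm]
  · intro h b b'
    have := (h b).trans (h b').symm
    exact Nat.eq_of_mul_eq_mul_right (Fact.out : p.Prime).pos this

lemma num_eq (S : Finset (ZMod p × ZMod p)) :
    numEquidistributed (S : Set (ZMod p × ZMod p)) +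
      {d : Option (ZMod p) | ∃ b : ZMod p,
        (S.filter (fun q => d.elim q.1 (fun m => q.2 - m * q.1) = b)).card * p
          ≠ S.card}.ncard = p + 1 := by
  have h1 : {D : Submodule (ZMod p) (ZMod p × ZMod p) | finrank (ZMod p) D = 1 ∧
      Equidistributed (S : Set (ZMod p × ZMod p)) D} =
      (fun d : Option (ZMod p) => LinearMap.ker (fn d)) ''
        {d | ∀ b : ZMod p, #(S.filter (fun q => fn d q = b)) * p = #S} := by
    ext D
    simp only [Set.mem_setOf_eq, Set.mem_image]
    constructor
    · rintro ⟨hD, hE⟩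
      obtain ⟨d, rfl⟩ := exists_ker D hD
      exact ⟨d, (equi_iff' S d).mp hE, rfl⟩
    · rintro ⟨d, hd, rfl⟩
      exact ⟨finrank_ker d, (equi_iff' S d).mpr hd⟩
  have h2 : {d : Option (ZMod p) | ∃ b : ZMod p,
        (S.filter (fun q => d.elim q.1 (fun m => q.2 - m * q.1) = b)).card * p
          ≠ S.card} = {d | ∀ b : ZMod p, #(S.filter (fun q => fn d q = b)) * p = #S}ᶜ := by
    ext d
    simp only [Set.mem_setOf_eq, Set.mem_compl_iff, not_forall, ← fn_apply, ne_eq]
  rw [numEquidistributed, h1, Set.ncard_image_of_injective _ ker_inj, h2,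
    Set.ncard_add_ncard_compl, Nat.card_eq_fintype_card, Fintype.card_option, ZMod.card]

end

/-- **Negative answer.** For every `k ≥ 4` and every large prime `p` no subset of the affine
plane of order `p` is equidistributed in exactly `p + 1 - k` directions. In particular it is not
true that for every prime `p` and every `d ≤ p - 2` some subset of the plane is equidistributed
in exactly `d` directions. -/
theorem result :
    (∀ k : ℕ, 4 ≤ k → ∃ p₀ : ℕ, ∀ p : ℕ, p.Prime → p₀ < p →
      ¬ ∃ S : Set (ZMod p × ZMod p), numEquidistributed S = p + 1 - k) ∧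
    ¬ (∀ p : ℕ, p.Prime → ∀ d : ℕ, d ≤ p - 2 →
      ∃ S : Set (ZMod p × ZMod p), numEquidistributed S = d) := by
  have part1 : ∀ k : ℕ, 4 ≤ k → ∃ p₀ : ℕ, ∀ p : ℕ, p.Prime → p₀ < p →
      ¬ ∃ S : Set (ZMod p × ZMod p), numEquidistributed S = p + 1 - k := by
    intro k hk
    obtain ⟨p₀, hp₀⟩ := Pool.Agent.S11957.result k hk
    refine ⟨max p₀ k, fun p hp hlt => ?_⟩
    haveI : Fact p.Prime := ⟨hp⟩
    rintro ⟨S, hS⟩
    have hkp : k < p := lt_of_le_of_lt (le_max_right _ _) hlt
    obtain ⟨T, rfl⟩ : ∃ T : Finset (ZMod p × ZMod p), (T : Set (ZMod p × ZMod p)) = S :=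
      ⟨S.toFinite.toFinset, by simp⟩
    have hnum := num_eq T
    rw [hS] at hnum
    -- some direction is equidistributed
    have hpos : 0 < numEquidistributed (T : Set (ZMod p × ZMod p)) := by
      rw [hS]; omega
    obtain ⟨D, hD1, hD2⟩ := Set.nonempty_of_ncard_ne_zero hpos.ne'
    obtain ⟨d, rfl⟩ := exists_ker D hD1
    have hdvd : p ∣ #T := by
      rw [← (equi_iff' T d).mp hD2 0]
      exact dvd_mul_left _ _
    exact hp₀ p hp (lt_of_le_of_lt (le_max_left _ _) hlt) T hdvd (by omega)
  refine ⟨part1, ?_⟩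
  intro h
  obtain ⟨p₀, hp₀⟩ := part1 4 le_rfl
  obtain ⟨p, hp1, hp2⟩ := Nat.exists_infinite_primes (max p₀ 4 + 1)
  have h1 : p₀ < p := lt_of_le_of_lt (le_max_left _ _) hp1
  have h2 : 4 < p := lt_of_le_of_lt (le_max_right _ _) hp1
  exact hp₀ p hp2 h1 (h p hp2 (p + 1 - 4) (by omega))

end Pool.Agent.Results.MP_ec4324_co.NotAllCounts
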